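import Pool.Agent.T2H09.IX.Root

/-!
# The periodic points over a disc of parameters without attracting cycles
-/

set_option autoImplicit false
open Set Filter Topology Metric Polynomial

namespace Pool.Agent.T2H09.IX

open Pool.Agent.W746.LD Pool.Agent.TH363.QI

lemma diffOn_orb {d : ℕ} {γ Z : ℂ → ℂ} {U : Set ℂ} (hγ : DifferentiableOn ℂ γ U)
    (hZ : DifferentiableOn ℂ Z U) (i : ℕ) : DifferentiableOn ℂ (fun s => orb d (γ s) (Z s) i) U := by
  induction i with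
  | zero => simpa only [orb_zero] using hZ
  | succ i ih =>
    simp only [orb_succ]
    exact (ih.fun_pow d).fun_add hγ

lemma diffOn_P {d : ℕ} {γ Z : ℂ → ℂ} {U : Set ℂ} (hγ : DifferentiableOn ℂ γ U)
    (hZ : DifferentiableOn ℂ Z U) (i : ℕ) : DifferentiableOn ℂ (fun s => P d (γ s) (Z s) i) U := by
  induction i with
  | zero => simp only [P_zero]; exact differentiableOn_const _
  | succ i ih =>
    simp only [P_succ]
    exact ih.fun_mul (((diffOn_orb hγ hZ i).fun_pow (d - 1)).const_mul (d : ℂ))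

lemma contDiffOn_orb {d : ℕ} {γ : ℂ → ℂ} {U : Set ℂ} (hU : IsOpen U)
    (hγ : DifferentiableOn ℂ γ U) (i : ℕ) :
    ContDiffOn ℂ 1 (fun p : ℂ × ℂ => orb d (γ p.1) p.2 i) (U ×ˢ univ) := by
  induction i with
  | zero => simp only [orb_zero]; exact contDiffOn_snd
  | succ i ih =>
    simp only [orb_succ]
    refine (ih.pow d).add ?_
    exact (hγ.contDiffOn hU).comp contDiffOn_fst fun p hp => hp.1

/-- The branches. -/
theorem branch {d N : ℕ} (hd : 2 ≤ d) (hN : 1 ≤ N) {γ : ℂ → ℂ}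
    (hγ : DifferentiableOn ℂ γ (ball 0 1))
    (hrep : ∀ s ∈ ball (0 : ℂ) 1, ∀ z, orb d (γ s) z N = z → P d (γ s) z N ≠ 1)
    {u : ℂ} (hu : orb d (γ 0) u N = u) :
    ∃ Z : ℂ → ℂ, DifferentiableOn ℂ Z (ball 0 1) ∧ Z 0 = u ∧
      (∀ s ∈ ball (0 : ℂ) 1, orb d (γ s) (Z s) N = Z s) ∧
      ∀ Z' : ℂ → ℂ, ContinuousOn Z' (ball 0 1) → (∃ s₁ ∈ ball (0 : ℂ) 1, Z' s₁ = Z s₁) →
        (∀ s ∈ ball (0 : ℂ) 1, orb d (γ s) (Z' s) N = Z' s) → ∀ s ∈ ball (0 : ℂ) 1, Z' s = Z s := by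
  have h := H713R3.ZA.root_holds ℂ (ball (0 : ℂ) 1) (fun s z => orb d (γ s) z N - z) isOpen_ball
    (convex_ball _ _) ((contDiffOn_orb isOpen_ball hγ N).sub contDiffOn_snd) ?_ ?_ 0
    (mem_ball_self one_pos) u (sub_eq_zero.mpr hu)
  · obtain ⟨Z, h1, h2, h3, h4⟩ := h
    refine ⟨Z, h1, h2, fun s hs => sub_eq_zero.mp (h3 s hs), fun Z' hZ' h5 h6 => ?_⟩
    exact h4 Z' hZ' h5 fun s hs => sub_eq_zero.mpr (h6 s hs)
  · intro K hK hKc M
    obtain ⟨B, hB⟩ := (hKc.image_of_continuousOn (hγ.continuousOn.mono hK)).isBounded.exists_norm_le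
    refine ⟨max (3 + B) M, fun s hs z hz => ?_⟩
    have h1 := hB (γ s) (mem_image_of_mem _ hs)
    by_contra hcon
    rw [not_le, max_lt_iff] at hcon
    have h2 := growth' hd hN (t := γ s) (z := z) (by linarith)
    linarith
  · intro s hs z hz
    have h1 : HasDerivAt (fun z => orb d (γ s) z N - z) (P d (γ s) z N - 1) z :=
      (hasDerivAt_orb z N).sub (hasDerivAt_id z)
    rw [h1.deriv]
    exact sub_ne_zero.mpr (hrep s hs z (sub_eq_zero.mp hz))

/-- The sum over all points for the global branches. -/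
theorem sum_branch {d N : ℕ} (hd : 2 ≤ d) (hN : 1 ≤ N) {γ : ℂ → ℂ}
    (hγ : DifferentiableOn ℂ γ (ball 0 1))
    (hrep : ∀ s ∈ ball (0 : ℂ) 1, ∀ z, orb d (γ s) z N = z → 1 < ‖P d (γ s) z N‖) :
    ∃ Z : ℂ → ℂ → ℂ, (∀ u ∈ Fx d N (γ 0), DifferentiableOn ℂ (Z u) (ball 0 1) ∧ Z u 0 = u ∧
        (∀ s ∈ ball (0 : ℂ) 1, orb d (γ s) (Z u s) N = Z u s)) ∧
      (∀ s ∈ ball (0 : ℂ) 1, ∀ z, orb d (γ s) z N = z → ∃ u ∈ Fx d N (γ 0), Z u s = z) ∧
      ∑ u ∈ Fx d N (γ 0), ‖deriv (fun s => P d (γ s) (Z u s) N) 0‖ / ‖1 - P d (γ 0) u N‖ ^ 2 ≤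
        (d : ℝ) ^ N := by
  have hrep' : ∀ s ∈ ball (0 : ℂ) 1, ∀ z, orb d (γ s) z N = z → P d (γ s) z N ≠ 1 := by
    intro s hs z hz h1
    have := hrep s hs z hz
    rw [h1, norm_one] at this
    exact lt_irrefl _ this
  have h0 : (0 : ℂ) ∈ ball (0 : ℂ) 1 := mem_ball_self one_pos
  have hch : ∀ u ∈ Fx d N (γ 0), ∃ Z : ℂ → ℂ, DifferentiableOn ℂ Z (ball 0 1) ∧ Z 0 = u ∧
      (∀ s ∈ ball (0 : ℂ) 1, orb d (γ s) (Z s) N = Z s) ∧
      ∀ Z' : ℂ → ℂ, ContinuousOn Z' (ball 0 1) → (∃ s₁ ∈ ball (0 : ℂ) 1, Z' s₁ = Z s₁) →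
        (∀ s ∈ ball (0 : ℂ) 1, orb d (γ s) (Z' s) N = Z' s) → ∀ s ∈ ball (0 : ℂ) 1, Z' s = Z s :=
    fun u hu => branch hd hN hγ hrep' ((mem_Fx hd hN).mp hu)
  choose! Z hZ1 hZ2 hZ3 hZ4 using hch
  have hinj : ∀ s ∈ ball (0 : ℂ) 1, Set.InjOn (fun u => Z u s) (Fx d N (γ 0)) := by
    intro s hs u hu v hv huv
    simp only at huv
    have h1 := hZ4 v hv (Z u) (hZ1 u hu).continuousOn ⟨s, hs, huv⟩ (hZ3 u hu) 0 h0
    rw [hZ2 u hu, hZ2 v hv] at h1
    exact h1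
  have himg : ∀ s ∈ ball (0 : ℂ) 1, (Fx d N (γ 0)).image (fun u => Z u s) = Fx d N (γ s) := by
    intro s hs
    apply Finset.eq_of_subset_of_card_le
    · intro z hz
      rw [Finset.mem_image] at hz
      obtain ⟨u, hu, rfl⟩ := hz
      exact (mem_Fx hd hN).mpr (hZ3 u hu s hs)
    · rw [Finset.card_image_of_injOn (hinj s hs), card_Fx hd hN (hrep' s hs),
        card_Fx hd hN (hrep' 0 h0)]
  refine ⟨Z, fun u hu => ⟨hZ1 u hu, hZ2 u hu, hZ3 u hu⟩, ?_, ?_⟩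
  · intro s hs z hz
    have h1 : z ∈ (Fx d N (γ 0)).image (fun u => Z u s) := by
      rw [himg s hs]; exact (mem_Fx hd hN).mpr hz
    rw [Finset.mem_image] at h1
    exact h1
  · set lam : ℂ → ℂ → ℂ := fun u s => P d (γ s) (Z u s) N with hlam
    set y : ℂ → ℂ → ℂ := fun u s => 1 / 2 - (1 - lam u s)⁻¹ with hy
    have hlamd : ∀ u ∈ Fx d N (γ 0), DifferentiableOn ℂ (lam u) (ball 0 1) := fun u hu =>
      diffOn_P hγ (hZ1 u hu) N
    have hlam1 : ∀ u ∈ Fx d N (γ 0), ∀ s ∈ ball (0 : ℂ) 1, 1 < ‖lam u s‖ := fun u hu s hs =>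
      hrep s hs _ (hZ3 u hu s hs)
    have hne : ∀ u ∈ Fx d N (γ 0), ∀ s ∈ ball (0 : ℂ) 1, 1 - lam u s ≠ 0 := by
      intro u hu s hs h
      have h1 := hlam1 u hu s hs
      rw [← sub_eq_zero.mp h, norm_one] at h1
      exact lt_irrefl _ h1
    have hyd : ∀ u ∈ Fx d N (γ 0), DifferentiableOn ℂ (y u) (ball 0 1) := fun u hu =>
      (((hlamd u hu).const_sub 1).fun_inv (hne u hu)).const_sub _
    have hre : ∀ u ∈ Fx d N (γ 0), ∀ s ∈ ball (0 : ℂ) 1, 0 < (y u s).re := by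
      intro u hu s hs
      have h1 := hlam1 u hu s hs
      have h2 := hne u hu s hs
      have h3 : 0 < Complex.normSq (1 - lam u s) := Complex.normSq_pos.mpr h2
      have h4 : (y u s).re = (Complex.normSq (lam u s) - 1) / (2 * Complex.normSq (1 - lam u s)) := by
        simp only [hy, Complex.sub_re, Complex.inv_re]
        have h5 : Complex.normSq (1 - lam u s) =
            1 - 2 * (lam u s).re + Complex.normSq (lam u s) := by
          rw [Complex.normSq_apply, Complex.normSq_apply]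
          simp only [Complex.sub_re, Complex.sub_im, Complex.one_re, Complex.one_im]
          ring
        have h6 : ((1 : ℂ) / 2).re = 1 / 2 := by norm_num
        rw [h6, Complex.one_re]
        field_simp
        linarith
      rw [h4]
      have h5 : 1 < Complex.normSq (lam u s) := by
        rw [Complex.normSq_eq_norm_sq]
        nlinarith
      apply div_pos <;> linarith
    have hsum : ∑ u ∈ Fx d N (γ 0), (y u 0).re = (d : ℝ) ^ N / 2 := by
      have h1 := index hd hN (hrep' 0 h0)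
      have h2 : ∑ u ∈ Fx d N (γ 0), y u 0 = (d : ℂ) ^ N / 2 := by
        have h3 : ∀ u ∈ Fx d N (γ 0), y u 0 = 1 / 2 - (1 - P d (γ 0) u N)⁻¹ := by
          intro u hu
          simp only [hy, hlam]
          rw [hZ2 u hu]
        rw [Finset.sum_congr rfl h3, Finset.sum_sub_distrib, h1, sub_zero, Finset.sum_const,
          card_Fx hd hN (hrep' 0 h0), nsmul_eq_mul]
        push_cast
        ring
      have h4 := congrArg Complex.re h2
      rw [Complex.re_sum] at h4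
      rw [h4]
      have h5 : (d : ℂ) ^ N / 2 = (((d : ℝ) ^ N / 2 : ℝ) : ℂ) := by push_cast; ring
      rw [h5, Complex.ofReal_re]
    have hder : ∀ u ∈ Fx d N (γ 0), ‖deriv (lam u) 0‖ / ‖1 - P d (γ 0) u N‖ ^ 2 =
        ‖deriv (y u) 0‖ := by
      intro u hu
      have h1 : HasDerivAt (lam u) (deriv (lam u) 0) 0 :=
        ((hlamd u hu 0 h0).differentiableAt (isOpen_ball.mem_nhds h0)).hasDerivAt
      have h2 := ((h1.const_sub 1).fun_inv (hne u hu 0 h0)).const_sub (1 / 2)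
      have h3 : deriv (y u) 0 = -(-(-deriv (lam u) 0) / (1 - lam u 0) ^ 2) := h2.deriv
      have h4 : lam u 0 = P d (γ 0) u N := by simp only [hlam]; rw [hZ2 u hu]
      rw [h3, norm_neg, norm_div, norm_neg, norm_neg, norm_pow, h4]
    calc ∑ u ∈ Fx d N (γ 0), ‖deriv (lam u) 0‖ / ‖1 - P d (γ 0) u N‖ ^ 2
        = ∑ u ∈ Fx d N (γ 0), ‖deriv (y u) 0‖ := Finset.sum_congr rfl hder
      _ ≤ ∑ u ∈ Fx d N (γ 0), 2 * (y u 0).re := by
          apply Finset.sum_le_sum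
          intro u hu
          have := harnack one_pos (hyd u hu) (hre u hu)
          linarith
      _ = (d : ℝ) ^ N := by rw [← Finset.mul_sum, hsum]; ring

end Pool.Agent.T2H09.IX
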