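import Pool.Agent.T2H09.IX.Branch
import Pool.Agent.T2H09.DH.Final

/-!
# The inequalities for the derivatives of the multipliers
-/

set_option autoImplicit false
open Set Filter Topology Metric Polynomial

namespace Pool.Agent.T2H09.IX

open Pool.Agent.W746.LD Pool.Agent.TH363.QI Pool.Agent.T2H09.DH N62a1eb23

/-- In an open set of parameters without attracting cycles all cycles are repelling. -/
lemma rep_open {d : ℕ} (hd : 2 ≤ d) {V : Set ℂ} (hV : IsOpen V)
    (hno : ∀ t ∈ V, ¬ ∃ m z, IsAttractingCycle (fun z => z ^ d + t) m z) {t : ℂ} (ht : t ∈ V)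
    {N : ℕ} (hN : 1 ≤ N) {z : ℂ} (hz : orb d t z N = z) : 1 < ‖P d t z N‖ := by
  obtain ⟨ε, hε, hb⟩ := Metric.isOpen_iff.mp hV t ht
  exact cyc hd (a := t) (r := ε) (fun t' ht' => hno t' (hb ht')) (mem_ball_self hε) hN hz

/-- The inequality on discs, for arbitrary local branches. -/
theorem disc {d N : ℕ} (hd : 2 ≤ d) (hN : 1 ≤ N) {γ : ℂ → ℂ}
    (hγ : DifferentiableOn ℂ γ (ball 0 1))
    (hrep : ∀ s ∈ ball (0 : ℂ) 1, ∀ z, orb d (γ s) z N = z → 1 < ‖P d (γ s) z N‖)
    {ι : Type*} (S : Finset ι) (W : ι → ℂ → ℂ) (hWc : ∀ i ∈ S, ContinuousAt (W i) 0)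
    (hWf : ∀ i ∈ S, ∀ᶠ s in 𝓝 (0 : ℂ), orb d (γ s) (W i s) N = W i s)
    (hinj : Set.InjOn (fun i => W i 0) S) :
    ∑ i ∈ S, ‖deriv (fun s => P d (γ s) (W i s) N) 0‖ / ‖1 - P d (γ 0) (W i 0) N‖ ^ 2 ≤
      (d : ℝ) ^ N := by
  obtain ⟨Z, h1, h2, h3⟩ := sum_branch hd hN hγ hrep
  have h0 : (0 : ℂ) ∈ ball (0 : ℂ) 1 := mem_ball_self one_pos
  have hmem : ∀ i ∈ S, W i 0 ∈ Fx d N (γ 0) := fun i hi =>
    (mem_Fx hd hN).mpr (hWf i hi).self_of_nhds
  have heq : ∀ i ∈ S, (fun s => P d (γ s) (W i s) N) =ᶠ[𝓝 0]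
      fun s => P d (γ s) (Z (W i 0) s) N := by
    intro i hi
    have hev : ∀ u ∈ Fx d N (γ 0), u ≠ W i 0 → ∀ᶠ s in 𝓝 (0 : ℂ), Z u s ≠ W i s := by
      intro u hu hne
      have hc1 : ContinuousAt (Z u) 0 :=
        ((h1 u hu).1 0 h0).continuousWithinAt.continuousAt (isOpen_ball.mem_nhds h0)
      have hc2 : ContinuousAt (fun s => Z u s - W i s) 0 := hc1.sub (hWc i hi)
      have hne' : Z u 0 - W i 0 ≠ 0 := by
        rw [(h1 u hu).2.1]
        exact sub_ne_zero.mpr hne
      filter_upwards [hc2.eventually_ne hne'] with s hs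
      exact fun h => hs (sub_eq_zero.mpr h)
    have hall : ∀ᶠ s in 𝓝 (0 : ℂ), ∀ u ∈ Fx d N (γ 0), u ≠ W i 0 → Z u s ≠ W i s := by
      rw [Filter.eventually_all_finset]
      intro u hu
      by_cases hne : u = W i 0
      · exact Filter.Eventually.of_forall fun s hcon => absurd hne hcon
      · filter_upwards [hev u hu hne] with s hs _ using hs
    filter_upwards [hall, hWf i hi, isOpen_ball.mem_nhds h0] with s hs1 hs2 hs3
    obtain ⟨u, hu, hZu⟩ := h2 s hs3 (W i s) hs2
    by_cases hne : u = W i 0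
    · rw [← hne, hZu]
    · exact absurd hZu (hs1 u hu hne)
  calc ∑ i ∈ S, ‖deriv (fun s => P d (γ s) (W i s) N) 0‖ / ‖1 - P d (γ 0) (W i 0) N‖ ^ 2
      = ∑ i ∈ S, ‖deriv (fun s => P d (γ s) (Z (W i 0) s) N) 0‖ /
          ‖1 - P d (γ 0) (W i 0) N‖ ^ 2 := by
        apply Finset.sum_congr rfl
        intro i hi
        rw [(heq i hi).deriv_eq]
    _ = ∑ u ∈ S.image (fun i => W i 0), ‖deriv (fun s => P d (γ s) (Z u s) N) 0‖ /
          ‖1 - P d (γ 0) u N‖ ^ 2 := by
        rw [Finset.sum_image hinj]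
    _ ≤ ∑ u ∈ Fx d N (γ 0), ‖deriv (fun s => P d (γ s) (Z u s) N) 0‖ /
          ‖1 - P d (γ 0) u N‖ ^ 2 := by
        apply Finset.sum_le_sum_of_subset_of_nonneg
        · intro u hu
          rw [Finset.mem_image] at hu
          obtain ⟨i, hi, rfl⟩ := hu
          exact hmem i hi
        · intro u _ _
          positivity
    _ ≤ (d : ℝ) ^ N := h3

/-- All cycles are repelling far from the parameters with an attracting cycle. -/
lemma rep_dist {d : ℕ} (hd : 2 ≤ d) {c : ℂ} {t : ℂ} (ht : t ∈ ball c (infDist c (Hy d)))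
    {N : ℕ} (hN : 1 ≤ N) {z : ℂ} (hz : orb d t z N = z) : 1 < ‖P d t z N‖ := by
  refine rep_open hd (V := ball c (infDist c (Hy d))) isOpen_ball ?_ ht hN hz
  intro t ht hcon
  have h1 : infDist c (Hy d) ≤ dist c t := infDist_le_dist_of_mem hcon
  rw [mem_ball, dist_comm] at ht
  linarith

/-- The inequality for the distance. -/
theorem dist_ineq {d N : ℕ} (hd : 2 ≤ d) (hN : 1 ≤ N) {c : ℂ} {ι : Type*} (S : Finset ι)
    (W : ι → ℂ → ℂ) (hWc : ∀ i ∈ S, ContinuousAt (W i) c)
    (hWf : ∀ i ∈ S, ∀ᶠ t in 𝓝 c, orb d t (W i t) N = W i t)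
    (hinj : Set.InjOn (fun i => W i c) S) :
    infDist c (Hy d) * ∑ i ∈ S, ‖deriv (fun t => P d t (W i t) N) c‖ / ‖1 - P d c (W i c) N‖ ^ 2 ≤
      (d : ℝ) ^ N := by
  rcases (infDist_nonneg (x := c) (s := Hy d)).eq_or_lt with h0 | h0
  · rw [← h0, zero_mul]
    positivity
  · set r := infDist c (Hy d) with hr
    have hrC : (r : ℂ) ≠ 0 := by exact_mod_cast h0.ne'
    set γ : ℂ → ℂ := fun s => c + r * s with hγ
    have hγ0 : γ 0 = c := by simp [hγ]
    have hγd : Differentiable ℂ γ := by fun_prop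
    have hmaps : ∀ s ∈ ball (0 : ℂ) 1, γ s ∈ ball c r := by
      intro s hs
      rw [mem_ball_zero_iff] at hs
      rw [mem_ball_iff_norm, hγ]
      simp only
      rw [add_sub_cancel_left, norm_mul, Complex.norm_real, Real.norm_eq_abs, abs_of_pos h0]
      nlinarith
    have hcont : Tendsto γ (𝓝 0) (𝓝 c) := by
      have := hγd.continuous.tendsto 0
      rwa [hγ0] at this
    have h1 := disc hd hN (γ := γ) hγd.differentiableOn
      (fun s hs z hz => rep_dist hd (hmaps s hs) hN hz) S (fun i s => W i (γ s))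
      (fun i hi => by
        have h2 := hWc i hi
        rw [← hγ0] at h2
        exact ContinuousAt.comp (f := γ) h2 hγd.continuous.continuousAt)
      (fun i hi => hcont.eventually (hWf i hi))
      (by
        intro i hi j hj hij
        simp only [hγ0] at hij
        exact hinj hi hj hij)
    have h2 : ∀ i, deriv (fun s => P d (γ s) (W i (γ s)) N) 0 =
        r * deriv (fun t => P d t (W i t) N) c := by
      intro i
      have h3 := deriv_comp_mul_left (r : ℂ) (fun s => P d (c + s) (W i (c + s)) N) 0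
      have h4 := deriv_comp_const_add (fun t => P d t (W i t) N) c 0
      rw [mul_zero, h4, add_zero, smul_eq_mul] at h3
      exact h3
    simp only [h2, hγ0, norm_mul, Complex.norm_real, Real.norm_eq_abs, abs_of_pos h0] at h1
    rw [Finset.mul_sum]
    refine le_trans (le_of_eq ?_) h1
    apply Finset.sum_congr rfl
    intro i _
    rw [mul_div_assoc]

lemma P_mul {d : ℕ} {t z : ℂ} {n : ℕ} (hz : orb d t z n = z) (q : ℕ) :
    orb d t z (n * q) = z ∧ P d t z (n * q) = P d t z n ^ q := by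
  induction q with
  | zero => simp
  | succ q ih =>
    rw [Nat.mul_succ]
    refine ⟨?_, ?_⟩
    · rw [orb_add, ih.1, hz]
    · rw [P_add, ih.1, ih.2, pow_succ]

lemma P_shift {d : ℕ} {t z : ℂ} {n : ℕ} (hz : orb d t z n = z) {i : ℕ} (hi : P d t z i ≠ 0) :
    P d t (orb d t z i) n = P d t z n := by
  have h1 := P_add (n := d) (c := t) z i n
  have h2 := P_add (n := d) (c := t) z n i
  rw [hz] at h2
  rw [add_comm i n] at h1
  rw [h1] at h2
  rw [mul_comm (P d t z n)] at h2
  exact mul_left_cancel₀ hi h2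

lemma orb_shift_fix {d : ℕ} {t z : ℂ} {n : ℕ} (hz : orb d t z n = z) (i : ℕ) :
    orb d t (orb d t z i) n = orb d t z i := by
  rw [← orb_add, add_comm, orb_add, hz]

/-- The inequality for a cycle. -/
theorem cycle_ineq {d : ℕ} (hd : 2 ≤ d) {c : ℂ} {n q : ℕ} (hn : 1 ≤ n) (hq : 1 ≤ q) {W : ℂ → ℂ}
    (hWc : ContinuousAt W c) (hWf : ∀ᶠ t in 𝓝 c, orb d t (W t) n = W t)
    (hmin : ∀ i < n, ∀ j < n, orb d c (W c) i = orb d c (W c) j → i = j) :
    infDist c (Hy d) * (n * q * ‖P d c (W c) n‖ ^ (q - 1) * ‖deriv (fun t => P d t (W t) n) c‖) ≤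
      (d : ℝ) ^ (n * q) * ‖1 - P d c (W c) n ^ q‖ ^ 2 := by
  rcases (infDist_nonneg (x := c) (s := Hy d)).eq_or_lt with h0 | h0
  · rw [← h0, zero_mul]
    positivity
  by_cases hdiff : DifferentiableAt ℂ (fun t => P d t (W t) n) c
  swap
  · rw [deriv_zero_of_not_differentiableAt hdiff, norm_zero, mul_zero, mul_zero]
    positivity
  have hN : 1 ≤ n * q := Nat.mul_pos hn hq
  set lam := P d c (W c) n with hlam
  have hfix : orb d c (W c) n = W c := hWf.self_of_nhds
  have hball : ∀ᶠ t in 𝓝 c, t ∈ ball c (infDist c (Hy d)) :=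
    isOpen_ball.mem_nhds (mem_ball_self h0)
  have hcO : ∀ i, ContinuousAt (fun t => orb d t (W t) i) c := by
    intro i
    induction i with
    | zero => simpa only [orb_zero] using hWc
    | succ i ih =>
      simp only [orb_succ]
      exact (ih.pow d).add continuousAt_id
  have h1 := dist_ineq hd hN (c := c) (Finset.range n) (fun i t => orb d t (W t) i)
    (fun i _ => hcO i)
    (fun i _ => by
      filter_upwards [hWf] with t ht
      have h2 := orb_shift_fix ht i
      exact (P_mul h2 q).1)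
    (fun i hi j hj hij => hmin i (Finset.mem_range.mp hi) j (Finset.mem_range.mp hj) hij)
  have heq : ∀ i, (fun t => P d t (orb d t (W t) i) (n * q)) =ᶠ[𝓝 c]
      fun t => P d t (W t) n ^ q := by
    intro i
    filter_upwards [hWf, hball] with t ht htb
    have h2 := orb_shift_fix ht i
    have h3 : P d t (W t) i ≠ 0 := by
      -- the multiplier is not zero
      have h4 : ∀ k : ℕ, P d t (W t) (n * k) ≠ 0 := by
        intro k h5
        rw [(P_mul ht k).2] at h5
        have h6 := rep_dist hd htb hn ht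
        rw [eq_zero_of_pow_eq_zero h5, norm_zero] at h6
        linarith
      intro h5
      obtain ⟨m, hm⟩ : ∃ m, n * (i + 1) = i + m := ⟨n * (i + 1) - i, by
        have : i + 1 ≤ n * (i + 1) := Nat.le_mul_of_pos_left _ hn
        omega⟩
      apply h4 (i + 1)
      rw [hm, P_add, h5, zero_mul]
    rw [(P_mul h2 q).2, P_shift ht h3]
  have hder : ∀ i, ‖deriv (fun t => P d t (orb d t (W t) i) (n * q)) c‖ =
      q * ‖lam‖ ^ (q - 1) * ‖deriv (fun t => P d t (W t) n) c‖ := by
    intro i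
    rw [(heq i).deriv_eq]
    have h2 := (hdiff.hasDerivAt.fun_pow q).deriv
    rw [h2, norm_mul, norm_mul, norm_pow, Complex.norm_natCast]
  have hval : ∀ i, P d c (orb d c (W c) i) (n * q) = lam ^ q := fun i => (heq i).self_of_nhds
  simp only [hder, hval, Finset.sum_const, Finset.card_range, nsmul_eq_mul] at h1
  have hne : 0 < ‖1 - lam ^ q‖ := by
    rw [norm_pos_iff, sub_ne_zero]
    intro h2
    have h3 := rep_dist hd (mem_ball_self h0) hn hfix
    have h4 : (1 : ℝ) < ‖lam‖ ^ q := one_lt_pow₀ h3 (by omega)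
    rw [← norm_pow, ← h2, norm_one] at h4
    exact lt_irrefl _ h4
  rw [← mul_div_assoc, ← mul_div_assoc, div_le_iff₀ (by positivity)] at h1
  calc infDist c (Hy d) * (n * q * ‖lam‖ ^ (q - 1) * ‖deriv (fun t => P d t (W t) n) c‖)
      = infDist c (Hy d) * (n * (q * ‖lam‖ ^ (q - 1) * ‖deriv (fun t => P d t (W t) n) c‖)) := by
        ring
    _ ≤ _ := h1

end Pool.Agent.T2H09.IX
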