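import Pool.Agent.TH363.QI.Cyc
import Pool.Agent.H713R3.ZA.TROOT
import Pool.Agent.H548R3.MM.Trace

/-!
# The periodic points as roots, and the holomorphic index formula
-/

set_option autoImplicit false
open Set Filter Topology Metric Polynomial

namespace Pool.Agent.T2H09.IX

open Pool.Agent.W746.LD Pool.Agent.TH363.QI

/-- The polynomial `f_t^N(z) - z`. -/
noncomputable def FP (d N : ℕ) (t : ℂ) : ℂ[X] := (G d N).map (ev t 0) - X

lemma eval_FP (d N : ℕ) (t z : ℂ) : (FP d N t).eval z = orb d t z N - z := by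
  rw [FP, eval_sub, eval_X, eval_G]

lemma two_le_pow {d N : ℕ} (hd : 2 ≤ d) (hN : 1 ≤ N) : 2 ≤ d ^ N :=
  calc 2 ≤ d := hd
    _ = d ^ 1 := (pow_one d).symm
    _ ≤ d ^ N := Nat.pow_le_pow_right (by omega) hN

lemma monic_FP {d N : ℕ} (hd : 2 ≤ d) (hN : 1 ≤ N) (t : ℂ) :
    (FP d N t).Monic ∧ (FP d N t).natDegree = d ^ N := by
  obtain ⟨h1, h2⟩ := monic_G hd N t 0
  have hnp := two_le_pow hd hN
  have hX : (X : ℂ[X]).degree < ((G d N).map (ev t 0)).degree := by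
    rw [Polynomial.degree_eq_natDegree h1.ne_zero, h2, Polynomial.degree_X]
    exact_mod_cast hnp
  refine ⟨h1.sub_of_left hX, ?_⟩
  rw [FP, Polynomial.natDegree_sub_eq_left_of_natDegree_lt, h2]
  rw [Polynomial.natDegree_X, h2]
  omega

lemma eval_der_FP (d N : ℕ) (t z : ℂ) : (derivative (FP d N t)).eval z = P d t z N - 1 := by
  rw [FP, derivative_sub, derivative_X, eval_sub, eval_one, Polynomial.derivative_map, eval_der_G]

lemma mem_roots_FP {d N : ℕ} (hd : 2 ≤ d) (hN : 1 ≤ N) {t z : ℂ} :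
    z ∈ (FP d N t).roots ↔ orb d t z N = z := by
  rw [mem_roots (monic_FP hd hN t).1.ne_zero, IsRoot.def, eval_FP, sub_eq_zero]

/-- The set of the points fixed by the iterate. -/
noncomputable def Fx (d N : ℕ) (t : ℂ) : Finset ℂ := (FP d N t).roots.toFinset

lemma mem_Fx {d N : ℕ} (hd : 2 ≤ d) (hN : 1 ≤ N) {t z : ℂ} :
    z ∈ Fx d N t ↔ orb d t z N = z := by
  rw [Fx, Multiset.mem_toFinset, mem_roots_FP hd hN]

lemma coprime_FP {d N : ℕ} {t : ℂ} (hs : ∀ z, orb d t z N = z → P d t z N ≠ 1) :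
    IsCoprime (FP d N t) (derivative (FP d N t)) := by
  rw [isCoprime_iff_aeval_ne_zero_of_isAlgClosed ℂ ℂ]
  intro z
  by_contra hcon
  push Not at hcon
  obtain ⟨h1, h2⟩ := hcon
  rw [coe_aeval_eq_eval, eval_FP] at h1
  rw [coe_aeval_eq_eval, eval_der_FP] at h2
  exact hs z (sub_eq_zero.mp h1) (sub_eq_zero.mp h2)

lemma nodup_FP {d N : ℕ} {t : ℂ} (hs : ∀ z, orb d t z N = z → P d t z N ≠ 1) :
    (FP d N t).roots.Nodup :=
  nodup_roots (coprime_FP hs)

lemma card_Fx {d N : ℕ} (hd : 2 ≤ d) (hN : 1 ≤ N) {t : ℂ}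
    (hs : ∀ z, orb d t z N = z → P d t z N ≠ 1) : (Fx d N t).card = d ^ N := by
  rw [Fx, Multiset.card_toFinset, (nodup_FP hs).dedup, ← (monic_FP hd hN t).2]
  exact (IsAlgClosed.splits (FP d N t)).natDegree_eq_card_roots.symm

/-- The holomorphic index formula. -/
lemma index {d N : ℕ} (hd : 2 ≤ d) (hN : 1 ≤ N) {t : ℂ}
    (hs : ∀ z, orb d t z N = z → P d t z N ≠ 1) :
    ∑ z ∈ Fx d N t, (1 - P d t z N)⁻¹ = 0 := by
  have h := H548R3.MM.sum_inv (FP d N t) (by rw [(monic_FP hd hN t).2]; exact two_le_pow hd hN)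
    (coprime_FP hs)
  have h2 : ∑ z ∈ Fx d N t, (1 - P d t z N)⁻¹ =
      ((FP d N t).roots.map fun z => (1 - P d t z N)⁻¹).sum := by
    rw [Fx, Finset.sum_eq_multiset_sum, Multiset.toFinset_val, (nodup_FP hs).dedup]
  rw [h2]
  have h3 : (fun z : ℂ => (1 - P d t z N)⁻¹) =
      fun z => - ((derivative (FP d N t)).eval z)⁻¹ := by
    funext z
    rw [eval_der_FP, ← inv_neg, neg_sub]
  rw [h3, Multiset.sum_map_neg, h, neg_zero]

/-- growth at infinity -/
lemma growth {d : ℕ} (hd : 2 ≤ d) {t z : ℂ} (h : 3 + ‖t‖ ≤ ‖z‖) (N : ℕ) :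
    3 ^ N * ‖z‖ ≤ ‖orb d t z N‖ := by
  induction N with
  | zero => rw [pow_zero, one_mul, orb_zero]
  | succ N ih =>
    have h0 : 0 ≤ ‖t‖ := norm_nonneg t
    have h3 : (1 : ℝ) ≤ 3 ^ N := one_le_pow₀ (by norm_num)
    have h1 : 3 + ‖t‖ ≤ ‖orb d t z N‖ := by nlinarith
    have h2 : ‖orb d t z N‖ ^ 2 ≤ ‖orb d t z N‖ ^ d := pow_le_pow_right₀ (by linarith) hd
    have h4 : ‖orb d t z N‖ ^ d - ‖t‖ ≤ ‖orb d t z (N + 1)‖ := by
      rw [orb_succ, ← norm_pow]
      have := norm_sub_le ((orb d t z N) ^ d + t) t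
      rw [add_sub_cancel_right] at this
      linarith
    have h5 : 3 * ‖orb d t z N‖ ≤ ‖orb d t z (N + 1)‖ := by nlinarith
    calc 3 ^ (N + 1) * ‖z‖ = 3 * (3 ^ N * ‖z‖) := by ring
      _ ≤ 3 * ‖orb d t z N‖ := by linarith
      _ ≤ _ := h5

lemma growth' {d N : ℕ} (hd : 2 ≤ d) (hN : 1 ≤ N) {t z : ℂ} (h : 3 + ‖t‖ ≤ ‖z‖) :
    ‖z‖ ≤ ‖orb d t z N - z‖ := by
  have h1 := growth hd h N
  have h2 : (3 : ℝ) ^ 1 ≤ 3 ^ N := pow_le_pow_right₀ (by norm_num) hN
  have h3 := norm_sub_norm_le (orb d t z N) z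
  have h4 : 0 ≤ ‖z‖ := norm_nonneg z
  nlinarith

/-- Harnack's inequality for the derivative. -/
lemma harnack {h : ℂ → ℂ} {c : ℂ} {r : ℝ} (hr : 0 < r) (hd : DifferentiableOn ℂ h (ball c r))
    (hre : ∀ z ∈ ball c r, 0 < (h z).re) : r * ‖deriv h c‖ ≤ 2 * (h c).re := by
  have hc : 0 < (h c).re := hre c (mem_ball_self hr)
  set w : ℂ := (starRingEnd ℂ) (h c) with hw
  have hne : ∀ z ∈ ball c r, h z + w ≠ 0 := by
    intro z hz h0
    have h1 := congrArg Complex.re h0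
    rw [Complex.add_re, Complex.zero_re, hw, Complex.conj_re] at h1
    have := hre z hz
    linarith
  set φ : ℂ → ℂ := fun z => (h z - h c) / (h z + w) with hφ
  have hφd : DifferentiableOn ℂ φ (ball c r) :=
    (hd.sub_const (h c)).fun_div (hd.add_const w) hne
  have hφc : φ c = 0 := by simp [hφ]
  have hmaps : MapsTo φ (ball c r) (closedBall (φ c) 1) := by
    intro z hz
    rw [hφc, mem_closedBall_zero_iff, hφ]
    simp only
    rw [norm_div, div_le_one (norm_pos_iff.mpr (hne z hz))]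
    rw [← sq_le_sq₀ (norm_nonneg _) (norm_nonneg _), ← Complex.normSq_eq_norm_sq,
      ← Complex.normSq_eq_norm_sq, Complex.normSq_apply, Complex.normSq_apply]
    simp only [Complex.sub_re, Complex.sub_im, Complex.add_re, Complex.add_im, hw, Complex.conj_re,
      Complex.conj_im]
    have h1 := hre z hz
    nlinarith [mul_pos h1 hc]
  have h1 := Complex.norm_deriv_le_div_of_mapsTo_ball hφd hmaps hr
  have hdc : DifferentiableAt ℂ h c := (hd c (mem_ball_self hr)).differentiableAt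
    (isOpen_ball.mem_nhds (mem_ball_self hr))
  have h2 : HasDerivAt φ (deriv h c / (h c + w)) c := by
    have h3 := ((hdc.hasDerivAt.sub_const (h c)).fun_div (hdc.hasDerivAt.add_const w)
      (hne c (mem_ball_self hr)))
    refine h3.congr_deriv ?_
    rw [sub_self, zero_mul, sub_zero]
    field_simp [hne c (mem_ball_self hr)]
  rw [h2.deriv, norm_div] at h1
  have h4 : ‖h c + w‖ = 2 * (h c).re := by
    rw [hw, Complex.add_conj, Complex.norm_real, Real.norm_eq_abs, abs_of_pos (by linarith)]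
  rw [h4, div_le_div_iff₀ (by linarith) hr] at h1
  linarith

end Pool.Agent.T2H09.IX
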